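import Pool.Agent.Helper64.PP.PEXT
import Pool.Agent.Helper19.RD.FIN

/-!
# Project PP (MP_fc6b1e_nt): packet P_EXB

Existence of `Base`. The theorem `exb_core` does not use `Tower` nor `1 < m`.
-/

set_option autoImplicit false

namespace Pool.Agent.Helper70.PP

open NumberField Polynomial Module IsDedekindDomain Pool.Agent.Helper51.SigLeo
open Pool.Agent.Helper51.RP Pool.Agent.Helper42.RD Pool.Agent.Helper42.PP
open Pool.Agent.Helper40.RS (bel)

section aux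

theorem aux1 {p : ℕ} [Fact p.Prime] {V : Type} [AddCommGroup V] [Module (ZMod p) V] (d : V →+ V)
    {P c : (ZMod p)[X]} (hc : P ∣ c) (v : V)
    (hv : ∑ j ∈ P.support, (P.coeff j).val • d^[j] v = 0) :
    ∑ j ∈ c.support, (c.coeff j).val • d^[j] v = 0 := by
  have hval : ∀ (a : ZMod p) (v : V), a.val • v = a • v := by
    intro a v
    conv_rhs => rw [← ZMod.natCast_zmod_val a]
    rw [Nat.cast_smul_eq_nsmul]
  let D : V →ₗ[ZMod p] V := AddMonoidHom.toZModLinearMap p d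
  have hD : ∀ (j : ℕ) (x : V), (D ^ j) x = d^[j] x := by
    intro j x
    rw [Module.End.pow_apply]
    rfl
  have key : ∀ (e : (ZMod p)[X]) (x : V), ∑ j ∈ e.support, (e.coeff j).val • d^[j] x =
      (aeval D e) x := by
    intro e x
    rw [aeval_endomorphism, Polynomial.sum_def]
    refine Finset.sum_congr rfl fun j _ => ?_
    rw [hval, hD]
  obtain ⟨c', rfl⟩ := hc
  rw [key] at hv ⊢
  rw [mul_comm, map_mul, Module.End.mul_apply, hv, map_zero]

theorem aux2 {p : ℕ} [Fact p.Prime] {V : Type} [AddCommGroup V] (h : ∀ v : V, p • v = 0)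
    (d : V →+ V) {P c : (ZMod p)[X]} (hc : P ∣ c) (v : V)
    (hv : ∑ j ∈ P.support, (P.coeff j).val • d^[j] v = 0) :
    ∑ j ∈ c.support, (c.coeff j).val • d^[j] v = 0 :=
  @aux1 p _ V _ (AddCommGroup.zmodModule h) d P c hc v hv

end aux

section polmul

variable {p : ℕ} {K M : Type} [Field K] [Field M] [Algebra K M]

/-- The group of the `p`-th powers. -/
def pth (p : ℕ) (M : Type) [Field M] : Subgroup Mˣ := (powMonoidHom p : Mˣ →* Mˣ).range

theorem mem_pth {x : Mˣ} : x ∈ pth p M ↔ Pw p x := by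
  constructor
  · rintro ⟨y, rfl⟩
    exact ⟨y, rfl⟩
  · rintro ⟨y, rfl⟩
    exact ⟨y, rfl⟩

/-- The group of the classes modulo the `p`-th powers, in additive notation. -/
def VV (p : ℕ) (M : Type) [Field M] : Type := Additive (Mˣ ⧸ pth p M)

instance (p : ℕ) (M : Type) [Field M] : AddCommGroup (VV p M) :=
  inferInstanceAs (AddCommGroup (Additive (Mˣ ⧸ pth p M)))

/-- The class of `x` modulo the `p`-th powers. -/
def cls (p : ℕ) {M : Type} [Field M] (x : Mˣ) : VV p M :=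
  Additive.ofMul (QuotientGroup.mk x)

theorem cls_eq_zero {x : Mˣ} : cls p x = 0 ↔ Pw p x := by
  rw [← mem_pth, ← QuotientGroup.eq_one_iff]
  exact Iff.rfl

theorem cls_mul (x y : Mˣ) : cls p (x * y) = cls p x + cls p y := rfl

theorem cls_pow (x : Mˣ) (n : ℕ) : cls p (x ^ n) = n • cls p x := rfl

theorem cls_prod (s : Finset ℕ) (f : ℕ → Mˣ) :
    cls p (∏ j ∈ s, f j) = ∑ j ∈ s, cls p (f j) := by
  classical
  induction s using Finset.induction_on with
  | empty =>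
    rw [Finset.prod_empty, Finset.sum_empty, cls_eq_zero]
    exact ⟨1, (one_pow p).symm⟩
  | insert a s ha ih => rw [Finset.prod_insert ha, Finset.sum_insert ha, cls_mul, ih]

theorem p_smul_cls (v : VV p M) : p • v = 0 := by
  obtain ⟨x, rfl⟩ := QuotientGroup.mk_surjective (Additive.toMul v)
  have h : cls p (x ^ p) = 0 := cls_eq_zero.2 ⟨x, rfl⟩
  exact h

/-- The action of `δ` on the classes. -/
def dact (p : ℕ) (δ : M ≃ₐ[K] M) : VV p M →+ VV p M :=
  MonoidHom.toAdditive (QuotientGroup.map (pth p M) (pth p M) (act δ) (by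
    rintro _ ⟨y, rfl⟩
    exact ⟨act δ y, (map_pow (act δ) y p).symm⟩))

theorem dact_cls (δ : M ≃ₐ[K] M) (x : Mˣ) : dact p δ (cls p x) = cls p (act δ x) := rfl

/-- The operators `pol c δ` are multiplicative in `c` modulo `p`-th powers. -/
theorem pw_pol_dvd [Fact p.Prime] (δ : M ≃ₐ[K] M) {P c : (ZMod p)[X]} (hc : P ∣ c) {u : Mˣ}
    (hu : Pw p (pol P δ u)) : Pw p (pol c δ u) := by
  have hD : ∀ (j : ℕ) (x : Mˣ), (dact p δ)^[j] (cls p x) = cls p (act (δ ^ j) x) := by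
    intro j x
    induction j with
    | zero => rfl
    | succ j ih =>
      rw [Function.iterate_succ_apply', ih, dact_cls]
      congr 1
      apply Units.ext
      show δ ((δ ^ j) (x : M)) = (δ ^ (j + 1)) (x : M)
      rw [pow_succ']
      rfl
  have key : ∀ (e : (ZMod p)[X]) (x : Mˣ), cls p (pol e δ x) =
      ∑ j ∈ e.support, (e.coeff j).val • (dact p δ)^[j] (cls p x) := by
    intro e x
    rw [Pool.Agent.Helper64.PP.pol_ap, cls_prod]
    refine Finset.sum_congr rfl fun j _ => ?_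
    rw [cls_pow, hD]
  rw [← cls_eq_zero, key] at hu ⊢
  exact aux2 p_smul_cls (dact p δ) hc _ hu

end polmul

section bound

/-- Bound for the number of `S`-units modulo `p`-th powers. -/
theorem unit_bd (p : ℕ) [Fact p.Prime] (F : Type) [Field F] [NumberField F]
    (Z : Set (HeightOneSpectrum (𝓞 F))) (hZ : Z.Finite) :
    ∃ n : ℕ, ∀ X : Finset Fˣ, (∀ x ∈ X, x ∈ Z.unit F) →
      (∀ x ∈ X, ∀ y ∈ X, x ≠ y → ¬ Pw p (x / y)) → X.card ≤ n := by
  classical
  have hft : Fintype Z := hZ.fintype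
  obtain ⟨n, hn⟩ := Pool.Agent.Helper19.RD.d_fin p F
  let f : Fˣ → (Z → ZMod p) := fun x w => ((ordv w.1 (x : F) : ℤ) : ZMod p)
  refine ⟨n * (Finset.univ : Finset (Z → ZMod p)).card, fun X hX hXp => ?_⟩
  refine Finset.card_le_mul_card_image_of_maps_to (f := f) (fun a _ => Finset.mem_univ _) n ?_
  intro b _
  rcases (X.filter fun a => f a = b).eq_empty_or_nonempty with h0 | ⟨x₀, hx₀⟩
  · rw [h0, Finset.card_empty]
    exact Nat.zero_le _
  obtain ⟨hx₀X, hx₀b⟩ := Finset.mem_filter.1 hx₀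
  have hinj : Function.Injective fun x : Fˣ => x / x₀ := fun x y h => by
    have h' : x / x₀ = y / x₀ := h
    rwa [div_left_inj] at h'
  rw [← Finset.card_image_of_injective (X.filter fun a => f a = b) hinj]
  refine hn _ ?_ ?_
  · intro y hy w
    obtain ⟨x, hx, rfl⟩ := Finset.mem_image.1 hy
    obtain ⟨hxX, hxb⟩ := Finset.mem_filter.1 hx
    have e : ((x / x₀ : Fˣ) : F) = (x : F) * (x₀ : F)⁻¹ := by
      rw [Units.val_div_eq_div_val, div_eq_mul_inv]
    rw [e, ordv_mul w x.ne_zero (inv_ne_zero x₀.ne_zero), ordv_inv w x₀.ne_zero]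
    by_cases hw : w ∈ Z
    · have h1 : f x ⟨w, hw⟩ = f x₀ ⟨w, hw⟩ := by rw [hxb, hx₀b]
      have h2 : ((ordv w (x : F) : ℤ) : ZMod p) = ((ordv w (x₀ : F) : ℤ) : ZMod p) := h1
      rw [← ZMod.intCast_zmod_eq_zero_iff_dvd]
      push_cast
      rw [h2]
      ring
    · have h1 : w.valuation F (x : F) = 1 := hX x hxX w hw
      have h2 : w.valuation F (x₀ : F) = 1 := hX x₀ hx₀X w hw
      rw [(ordv_eq_zero_iff w x.ne_zero).2 h1, (ordv_eq_zero_iff w x₀.ne_zero).2 h2]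
      simp
  · intro y hy y' hy' hne
    obtain ⟨x, hx, rfl⟩ := Finset.mem_image.1 hy
    obtain ⟨x', hx', rfl⟩ := Finset.mem_image.1 hy'
    have hne' : x ≠ x' := fun h => hne (by rw [h])
    have e : x / x₀ / (x' / x₀) = x / x' := div_div_div_cancel_right x x' x₀
    rw [e]
    exact hXp x (Finset.mem_filter.1 hx).1 x' (Finset.mem_filter.1 hx').1 hne'

end bound

/-- Existence of `Base`, without `Tower` and without `1 < m`. -/
theorem exb_core (h2 : P_UPR) (h4 : P_LFI) (h5 : P_SEP) (h6 : P_BAS) (h7 : P_WSP) (h8 : P_FUN)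
    {p : ℕ} [Fact p.Prime] {K M K₁ M₁ : Type} [Field K] [NumberField K] [Field M] [NumberField M]
    [Field K₁] [NumberField K₁] [Field M₁] [NumberField M₁] [Algebra K M] [Algebra K K₁]
    [Algebra K M₁] [Algebra M M₁] [Algebra K₁ M₁] [IsGalois K M] [IsGalois K K₁] [IsGalois K M₁]
    {ε : K₁} (hprim : IsPrimitiveRoot ε p) (hgen : ∀ σ : K₁ ≃ₐ[K] K₁, σ ε = ε → σ = 1)
    (hcop : (finrank K K₁).Coprime p) {m : ℕ} (hm : 0 < m) (hmp : m.Coprime p)
    {δ : M ≃ₐ[K] M} (hδ : δ ^ m = 1) {P : (ZMod p)[X]} (hP : Irreducible P) (hPd : P ∣ X ^ m - 1)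
    (S : Finset (HeightOneSpectrum (𝓞 K)))
    (abp : ∀ v : HeightOneSpectrum (𝓞 K), v.valuation K (p : K) < 1 → v ∈ S)
    (unr : ∀ v : HeightOneSpectrum (𝓞 K), v ∉ S → ∀ W : HeightOneSpectrum (𝓞 M₁), Above W v →
      ∀ x : K, ordv W (algebraMap K M₁ x) = ordv v x)
    (prM : ∀ n : HeightOneSpectrum (𝓞 M) →₀ ℤ, ∃ x : Mˣ, ∀ w ∉ up M S, ordv w (x : M) = n w)
    (prK : ∀ n : HeightOneSpectrum (𝓞 K₁) →₀ ℤ, ∃ x : K₁ˣ, ∀ w ∉ up K₁ S,
      ordv w (x : K₁) = n w)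
    (prMK : ∀ n : HeightOneSpectrum (𝓞 M₁) →₀ ℤ, ∃ x : M₁ˣ, ∀ w ∉ up M₁ S,
      ordv w (x : M₁) = n w)
    (uM : ∀ x ∈ (up M S).unit M, LocS p (up M S) x → Pw p x)
    (uK : ∀ x ∈ (up K₁ S).unit K₁, LocS p (up K₁ S) x → Pw p x)
    (hvis : ∀ v ∉ S, ∀ W : HeightOneSpectrum (𝓞 M₁), Above W v → FreeP K W →
      p ∣ Ideal.absNorm W.asIdeal - 1 ∧ ∃ (w : HeightOneSpectrum (𝓞 M))
        (Q : HeightOneSpectrum (𝓞 K₁)), Above W w ∧ Above W Q ∧ Above Q v ∧ FreeP K Q) :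
    Nonempty (Base p K M K₁ M₁ ε δ P) := by
  classical
  have hp : p.Prime := Fact.out
  obtain ⟨hSf, hst, hSp, -, -, hexM, -⟩ := h2 p K M S
  obtain ⟨hSf₁, hst₁, hSp₁, -, -, hexK, -⟩ := h2 p K K₁ S
  obtain ⟨-, -, -, -, -, hexN, -⟩ := h2 p K M₁ S
  -- the primes
  have hch : ∀ v : HeightOneSpectrum (𝓞 K), ∃ (Q : HeightOneSpectrum (𝓞 K₁))
      (w : HeightOneSpectrum (𝓞 M)) (W : HeightOneSpectrum (𝓞 M₁)),
      (v ∈ Spl K₁ S → Above Q v ∧ FreeP K Q) ∧
      (v ∈ Spl M₁ S → Above W v ∧ Above W Q ∧ Above W w ∧ FreeP K W ∧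
        p ∣ Ideal.absNorm W.asIdeal - 1) := by
    intro v
    by_cases hv : v ∈ Spl M₁ S
    · obtain ⟨hvS, W, hWv, hWf⟩ := hv
      obtain ⟨hN, w, Q, hWw, hWQ, hQv, hQf⟩ := hvis v hvS W hWv hWf
      exact ⟨Q, w, W, fun _ => ⟨hQv, hQf⟩, fun _ => ⟨hWv, hWQ, hWw, hWf, hN⟩⟩
    · obtain ⟨w, -⟩ := hexM v
      obtain ⟨W, -⟩ := hexN v
      by_cases hv' : v ∈ Spl K₁ S
      · obtain ⟨-, Q, hQ⟩ := hv'
        exact ⟨Q, w, W, fun _ => hQ, fun h => absurd h hv⟩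
      · obtain ⟨Q, -⟩ := hexK v
        exact ⟨Q, w, W, fun h => absurd h hv', fun h => absurd h hv⟩
  choose Q w W hQ hW using hch
  -- the uniformizers
  have hvp : ∀ v : HeightOneSpectrum (𝓞 K), ∃ x : K, ordv v x = 1 := by
    intro v
    obtain ⟨π, hπ⟩ := v.valuation_exists_uniformizer K
    refine ⟨π, ?_⟩
    unfold ordv
    rw [hπ, WithZero.log_exp]
    norm_num
  choose vp hvp using hvp
  -- the logarithms
  have hth : ∀ v : HeightOneSpectrum (𝓞 K), ∃ θ : M₁ˣ → ZMod p, v ∈ Spl M₁ S →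
      Hom θ ∧ ∀ x : M₁ˣ, θ x = 0 ↔
        ∃ i : ℕ, LocPow p (W v) ((x : M₁) * (algebraMap K M₁ (vp v)) ^ i) := by
    intro v
    by_cases hv : v ∈ Spl M₁ S
    · have h1 := hW v hv
      obtain ⟨θ, hθ1, hθ2, -⟩ := exists_theta (W v) hp h1.2.2.2.2 (algebraMap K M₁ (vp v))
        (by rw [unr v hv.1 (W v) h1.1, hvp])
      exact ⟨θ, fun _ => ⟨hθ1, hθ2⟩⟩
    · exact ⟨fun _ => 0, fun h => absurd h hv⟩
  choose th hth using hth
  choose z hz using fun v => prMK (Finsupp.single (W v) 1)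
  choose y hy using fun v => prK (Finsupp.single (Q v) 1)
  -- the `P`-part
  obtain ⟨G, hG, -, hGp, hGs, -⟩ := h4 p K M (up M S) hSf (hSp abp) hst
  obtain ⟨G₁, hG₁, hG₁i, hG₁p, hG₁s, -⟩ := h4 p K K₁ (up K₁ S) hSf₁ (hSp₁ abp) hst₁
  obtain ⟨N, hN⟩ := unit_bd p M (up M S) hSf
  obtain ⟨r, -, u, hu, huI, huG⟩ := h6 p K M m δ P hm hmp hδ hP hPd ((up M S).unit M)
    (fun x hx => Pool.Agent.Helper64.PP.unit_act hst δ hx) N (by
      intro X hX hXp
      refine (hN X (fun x hx => (hX x hx).1) hXp).trans ?_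
      have h1 : N ≤ P.natDegree * N := Nat.le_mul_of_pos_left N hP.natDegree_pos
      exact h1.trans (Nat.lt_pow_self hp.one_lt).le)
  have hunitpol : ∀ c : Fin r → (ZMod p)[X], (∏ i, pol (c i) δ (u i)) ∈ (up M S).unit M :=
    fun c => Subgroup.prod_mem _ fun i _ => Pool.Agent.Helper64.PP.unit_pol hst δ _ (hu i).1
  obtain ⟨rho, hrhoP, hrhoG, hrhou⟩ := (h5 p K M m δ P hm hmp hδ hP hPd G hGp (hGs δ)).1 r u
    (fun i => hGp _ (hu i).2) (fun c hc => huI c (uM _ (hunitpol c) ((hG _).1 hc)))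
  obtain ⟨hF, -⟩ := h8 p K M m δ P hm hmp hδ hP hPd
  have hrho0 : ∀ x ∈ (up M S).unit M, Pw p (pol P δ x) → (∀ i, rho i x = 0) → Pw p x := by
    intro x hx hxP hx0
    obtain ⟨c, hc⟩ := huG x hx hxP
    have hdvd : ∀ i, P ∣ c i := by
      intro i
      have h1 := (hF _ (hrhoP i)).2 _ hc
      rw [Pool.Agent.Helper64.PP.hom_div (hrhoP i).1, hx0 i, zero_sub, neg_eq_zero,
        Pool.Agent.Helper64.PP.hom_prod (hrhoP i).1] at h1
      have h3 : ∀ j, rho i (pol (c j) δ (u j)) = if i = j then AdjoinRoot.mk P (c j) else 0 := by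
        intro j
        rw [(hF _ (hrhoP i)).1, hrhou]
        split_ifs <;> simp
      rw [Finset.sum_congr rfl fun j _ => h3 j, Finset.sum_ite_eq] at h1
      simpa using h1
    have h3 : Pw p (∏ i, pol (c i) δ (u i)) :=
      Pool.Agent.Helper64.PP.pw_prod _ fun i => pw_pol_dvd δ (hdvd i) (hu i).2
    have h4 := Pool.Agent.Helper64.PP.pw_mul hc h3
    rwa [div_mul_cancel] at h4
  -- type `ω`
  obtain ⟨⟨s, uw, rw', huw, hrwO, hrwG, hrwu, hrw0⟩, t, ch, hchO, hchG, hchU, hchI, hchC⟩ :=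
    h7 p K K₁ ε hprim hgen hcop G₁ ((up K₁ S).unit K₁) hG₁i hG₁p hG₁s
      (fun σ x hx => Pool.Agent.Helper64.PP.unit_act hst₁ σ hx)
      (fun x hx hxG => uK x hx ((hG₁ x).1 hxG))
  exact ⟨{
    S := S
    abp := abp
    unr := unr
    prM := prM
    prK := prK
    prMK := prMK
    Q := Q
    w := w
    W := W
    Qa := hQ
    Wa := fun v hv => ⟨(hW v hv).1, (hW v hv).2.1, (hW v hv).2.2.1, (hW v hv).2.2.2.1⟩
    vp := vp
    vpo := fun v _ => hvp v
    th := th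
    thh := fun v hv => (hth v hv).1
    thk := fun v hv => (hth v hv).2
    z := z
    zo := fun v _ W' hW' => ⟨fun h => by rw [hz v W' hW', h, Finsupp.single_eq_same],
      fun h => by rw [hz v W' hW', Finsupp.single_eq_of_ne h]⟩
    y := y
    yo := fun v _ Q' hQ' => ⟨fun h => by rw [hy v Q' hQ', h, Finsupp.single_eq_same],
      fun h => by rw [hy v Q' hQ', Finsupp.single_eq_of_ne h]⟩
    r := r
    u := u
    uS := fun i => (hu i).1
    uP := fun i => (hu i).2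
    rho := rho
    rhoP := hrhoP
    rhoL := fun i x hx => hrhoG i x ((hG x).2 hx)
    rhou := hrhou
    rho0 := hrho0
    s := s
    uw := uw
    uwS := fun i => (huw i).1
    uwO := fun i => (huw i).2
    rw := rw'
    rwO := hrwO
    rwL := fun i x hx => hrwG i x ((hG₁ x).2 hx)
    rwu := hrwu
    rw0 := hrw0
    t := t
    ch := ch
    chO := hchO
    chL := fun j x hx => hchG j x ((hG₁ x).2 hx)
    chS := hchU
    chI := hchI
    chC := fun a ha h => by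
      obtain ⟨x, hx1, hx2, hx3⟩ := hchC a ha h
      exact ⟨x, hx1, hx2, (hG₁ _).1 hx3⟩ }⟩

/-- **Packet PP-B-PEXB.** -/
theorem p_exb (h1 : P_SCH) (h2 : P_UPR) (h3 : P_VIS) (h4 : P_LFI) (h5 : P_SEP) (h6 : P_BAS)
    (h7 : P_WSP) (h8 : P_FUN) : Pool.Agent.Helper42.PP.P_EXB := by
  intro p hp k _ _ K M K₁ M₁ _ _ _ _ _ _ _ _ _ _ _ _ _ _ _ _ _ _ _ ε hT m δ ζ Φ P hPhi hord
    hfr htor
  have hp' : p.Prime := hp.out
  have hδm : δ ^ m = 1 := by rw [← hord]; exact pow_orderOf_eq_one δ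
  have hm0 : 0 < m := lt_trans zero_lt_one hPhi.one_lt
  have hcK₁ : (finrank K K₁).Coprime p := by
    have hd3 := Pool.Agent.Helper14.RD.finrank_dvd_pred p K K₁ ε hT.prim hT.gen
    have hc1 : (p - 1).Coprime p := by
      have h := hp'.one_lt
      have h2 : (p - 1).Coprime (p - 1 + 1) := by simp
      rwa [Nat.sub_add_cancel h.le] at h2
    exact Nat.Coprime.coprime_dvd_left hd3 hc1
  obtain ⟨S, abp, unr, prM, prK, prMK, uM, uK⟩ := h1 p K M K₁ M₁ ε hT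
  refine exb_core h2 h4 h5 h6 h7 h8 hT.prim hT.gen hcK₁ hm0 hPhi.copm hδm hPhi.irr hPhi.dvdP S abp
    unr prM prK prMK uM uK ?_
  intro v hv W hWv hWf
  have hv1 : v.valuation K (p : K) = 1 := by
    have h : v.valuation K ((p : 𝓞 K) : K) ≤ 1 := v.valuation_le_one (K := K) (p : 𝓞 K)
    have e : ((p : 𝓞 K) : K) = p := map_natCast (algebraMap (𝓞 K) K) p
    rw [e] at h
    by_contra h'
    exact hv (abp v (lt_of_le_of_ne h h'))
  obtain ⟨hv2, -, hv3⟩ := h3 p K M K₁ M₁ ε hT v hv1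
  obtain ⟨hN, -, hQ⟩ := hv2 W hWv hWf
  obtain ⟨hQf, -, hQv⟩ := hQ (bel K₁ W) rfl
  refine ⟨?_, bel M W, bel K₁ W, rfl, rfl, hQv, hQf⟩
  rw [hN]
  exact (hv3 _ hQv hQf).2

end Pool.Agent.Helper70.PP
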